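import Pool.Agent.W586.GZ.Stm

/-!
# GZ-BAN: the Banach space defined by a norming set
-/

set_option autoImplicit false
open Filter Topology BoundedContinuousFunction

namespace Pool.Agent.W18.GZ.BAN
open Pool.Agent.W586.GZ

/-- functionals with signs -/
def Tt (S : Set (ℕ →₀ ℚ)) : Type := {f : ℕ →₀ ℚ // f ∈ S} × (ℕ → Bool)

instance (S : Set (ℕ →₀ ℚ)) : TopologicalSpace (Tt S) := ⊥
instance (S : Set (ℕ →₀ ℚ)) : DiscreteTopology (Tt S) := ⟨rfl⟩

/-- signs -/
noncomputable def sg (b : Bool) : ℝ := if b = true then 1 else -1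

lemma abs_sg (b : Bool) : |sg b| = 1 := by
  unfold sg
  cases b <;> simp

section
variable {S : Set (ℕ →₀ ℚ)}

lemma bd (hS : Idl S) (n : ℕ) (p : Tt S) : ‖sg (p.2 n) * ((p.1.1 n : ℚ) : ℝ)‖ ≤ 1 := by
  rw [Real.norm_eq_abs, abs_mul, abs_sg, one_mul]
  have h1 : (0 : ℝ) ≤ ((p.1.1 n : ℚ) : ℝ) := by exact_mod_cast hS.nn _ p.1.2 n
  have h2 : ((p.1.1 n : ℚ) : ℝ) ≤ 1 := by exact_mod_cast hS.le _ p.1.2 n
  rw [abs_of_nonneg h1]
  exact h2

/-- the basis vectors -/
noncomputable def bv (hS : Idl S) (n : ℕ) : Tt S →ᵇ ℝ :=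
  BoundedContinuousFunction.ofNormedAddCommGroupDiscrete
    (fun p => sg (p.2 n) * ((p.1.1 n : ℚ) : ℝ)) 1 (bd hS n)

lemma bv_apply (hS : Idl S) (n : ℕ) (p : Tt S) :
    bv hS n p = sg (p.2 n) * ((p.1.1 n : ℚ) : ℝ) := rfl

/-- the point of the index set giving the `n`-th coordinate -/
noncomputable def pt (hS : Idl S) (n : ℕ) : Tt S := (⟨Finsupp.single n 1, hS.un n⟩, fun _ => true)

lemma bv_pt (hS : Idl S) (n m : ℕ) : bv hS m (pt hS n) = if n = m then 1 else 0 := by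
  rw [bv_apply]
  unfold pt sg
  simp only [if_true, one_mul]
  rw [Finsupp.single_apply]
  split_ifs <;> simp

/-- the space -/
noncomputable def XX (hS : Idl S) : Submodule ℝ (Tt S →ᵇ ℝ) :=
  (Submodule.span ℝ (Set.range (bv hS))).topologicalClosure

lemma bv_mem (hS : Idl S) (n : ℕ) : bv hS n ∈ XX hS :=
  Submodule.le_topologicalClosure _ (Submodule.subset_span ⟨n, rfl⟩)

/-- values of the elements of the space -/
lemma val (hS : Idl S) (p : Tt S) (u : Tt S →ᵇ ℝ) (hu : u ∈ XX hS) :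
    u p = ∑ n ∈ p.1.1.support, sg (p.2 n) * ((p.1.1 n : ℚ) : ℝ) * u (pt hS n) := by
  set A : Submodule ℝ (Tt S →ᵇ ℝ) :=
    { carrier := {u | u p = ∑ n ∈ p.1.1.support, sg (p.2 n) * ((p.1.1 n : ℚ) : ℝ) * u (pt hS n)}
      add_mem' := by
        intro a b ha hb
        simp only [Set.mem_setOf_eq] at ha hb ⊢
        rw [BoundedContinuousFunction.add_apply, ha, hb, ← Finset.sum_add_distrib]
        apply Finset.sum_congr rfl
        intro n _
        rw [BoundedContinuousFunction.add_apply, mul_add]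
      zero_mem' := by simp
      smul_mem' := by
        intro c a ha
        simp only [Set.mem_setOf_eq] at ha ⊢
        show c * a p = ∑ n ∈ p.1.1.support, sg (p.2 n) * ((p.1.1 n : ℚ) : ℝ) * (c * a (pt hS n))
        rw [ha, Finset.mul_sum]
        apply Finset.sum_congr rfl
        intro n _
        ring } with hA
  have hcl : IsClosed (A : Set (Tt S →ᵇ ℝ)) := by
    have : (A : Set (Tt S →ᵇ ℝ)) =
      {u | u p = ∑ n ∈ p.1.1.support, sg (p.2 n) * ((p.1.1 n : ℚ) : ℝ) * u (pt hS n)} := rfl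
    rw [this]
    apply isClosed_eq
    · exact (BoundedContinuousFunction.evalCLM ℝ p).continuous
    · refine continuous_finset_sum _ fun n _ => ?_
      exact continuous_const.mul (BoundedContinuousFunction.evalCLM ℝ (pt hS n)).continuous
  have hle : XX hS ≤ A := by
    apply Submodule.topologicalClosure_minimal _ _ hcl
    rw [Submodule.span_le]
    rintro _ ⟨m, rfl⟩
    show bv hS m p = ∑ n ∈ p.1.1.support, sg (p.2 n) * ((p.1.1 n : ℚ) : ℝ) * bv hS m (pt hS n)
    simp only [bv_pt]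
    by_cases hm : m ∈ p.1.1.support
    · rw [Finset.sum_eq_single_of_mem m hm]
      · rw [if_pos rfl, mul_one, bv_apply]
      · intro n _ hne
        rw [if_neg hne, mul_zero]
    · rw [Finset.sum_eq_zero, bv_apply, Finsupp.notMem_support_iff.1 hm]
      · simp
      · intro n hn
        rw [if_neg (fun h : n = m => hm (h ▸ hn)), mul_zero]
  exact hle hu

/-- the norm -/
lemma norm_iff (hS : Idl S) (u : Tt S →ᵇ ℝ) (hu : u ∈ XX hS) (c : ℝ) (hc : 0 ≤ c) :
    ‖u‖ ≤ c ↔ NB S (fun n => u (pt hS n)) c := by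
  rw [BoundedContinuousFunction.norm_le hc]
  constructor
  · intro h f hf
    have h1 := h (⟨f, hf⟩, fun n => decide (0 ≤ u (pt hS n)))
    rw [val hS _ u hu] at h1
    have h2 : ∑ n ∈ f.support, sg (decide (0 ≤ u (pt hS n))) * ((f n : ℚ) : ℝ) * u (pt hS n) =
        ev f (fun n => u (pt hS n)) := by
      unfold ev
      apply Finset.sum_congr rfl
      intro n _
      by_cases h3 : 0 ≤ u (pt hS n)
      · simp [sg, h3, abs_of_nonneg h3]
      · simp only [sg, h3, decide_false, Bool.false_eq_true, if_false]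
        rw [abs_of_neg (not_le.1 h3)]
        ring
    have h4 := (le_abs_self _).trans h1
    rwa [h2] at h4
  · intro h p
    rw [val hS p u hu]
    refine le_trans ?_ (h p.1.1 p.1.2)
    unfold ev
    refine (norm_sum_le _ _).trans (le_of_eq ?_)
    apply Finset.sum_congr rfl
    intro n _
    have h1 : (0 : ℝ) ≤ ((p.1.1 n : ℚ) : ℝ) := by exact_mod_cast hS.nn _ p.1.2 n
    rw [norm_mul, norm_mul, Real.norm_eq_abs, Real.norm_eq_abs, Real.norm_eq_abs, abs_sg, one_mul,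
      abs_of_nonneg h1]

/-- partial sums -/
noncomputable def ps (hS : Idl S) (N : ℕ) (u : Tt S →ᵇ ℝ) : Tt S →ᵇ ℝ :=
  ∑ n ∈ Finset.range N, u (pt hS n) • bv hS n

lemma ps_mem (hS : Idl S) (N : ℕ) (u : Tt S →ᵇ ℝ) : ps hS N u ∈ XX hS :=
  Submodule.sum_mem _ fun n _ => Submodule.smul_mem _ _ (bv_mem hS n)

lemma ps_pt (hS : Idl S) (N : ℕ) (u : Tt S →ᵇ ℝ) (m : ℕ) :
    ps hS N u (pt hS m) = if m < N then u (pt hS m) else 0 := by
  unfold ps
  have h : (∑ n ∈ Finset.range N, u (pt hS n) • bv hS n) (pt hS m) =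
      ∑ n ∈ Finset.range N, u (pt hS n) * bv hS n (pt hS m) := by
    have := map_sum (BoundedContinuousFunction.evalCLM ℝ (pt hS m))
      (fun n => u (pt hS n) • bv hS n) (Finset.range N)
    exact this
  rw [h]
  simp only [bv_pt]
  by_cases hm : m < N
  · rw [Finset.sum_eq_single_of_mem m (Finset.mem_range.2 hm), if_pos rfl, if_pos hm, mul_one]
    intro n _ hne
    rw [if_neg (Ne.symm hne), mul_zero]
  · rw [if_neg hm, Finset.sum_eq_zero]
    intro n hn
    rw [if_neg (fun h : m = n => hm (h ▸ Finset.mem_range.1 hn)), mul_zero]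

lemma ps_norm (hS : Idl S) (N : ℕ) (u : Tt S →ᵇ ℝ) (hu : u ∈ XX hS) : ‖ps hS N u‖ ≤ ‖u‖ := by
  rw [norm_iff hS _ (ps_mem hS N u) _ (norm_nonneg _)]
  have h1 := (norm_iff hS u hu _ (norm_nonneg _)).1 le_rfl
  refine NB.le hS h1 fun m => ?_
  rw [ps_pt]
  split_ifs
  · exact le_rfl
  · simp

lemma ps_add (hS : Idl S) (N : ℕ) (u v : Tt S →ᵇ ℝ) : ps hS N (u + v) = ps hS N u + ps hS N v := by
  unfold ps
  rw [← Finset.sum_add_distrib]
  apply Finset.sum_congr rfl
  intro n _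
  rw [BoundedContinuousFunction.add_apply, add_smul]

lemma ps_smul (hS : Idl S) (N : ℕ) (c : ℝ) (u : Tt S →ᵇ ℝ) : ps hS N (c • u) = c • ps hS N u := by
  unfold ps
  rw [Finset.smul_sum]
  apply Finset.sum_congr rfl
  intro n _
  show (c * u (pt hS n)) • bv hS n = c • u (pt hS n) • bv hS n
  rw [mul_smul]

lemma ps_span (hS : Idl S) (u : Tt S →ᵇ ℝ) (hu : u ∈ Submodule.span ℝ (Set.range (bv hS))) :
    ∃ N₀, ∀ N, N₀ ≤ N → ps hS N u = u := by
  induction hu using Submodule.span_induction with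
  | mem x hx =>
    obtain ⟨m, rfl⟩ := hx
    refine ⟨m + 1, fun N hN => ?_⟩
    unfold ps
    simp only [bv_pt]
    rw [Finset.sum_eq_single_of_mem m (Finset.mem_range.2 (by omega)), if_pos rfl, one_smul]
    intro n _ hne
    rw [if_neg hne, zero_smul]
  | zero =>
    refine ⟨0, fun N _ => ?_⟩
    unfold ps
    simp
  | add x y _ _ hx hy =>
    obtain ⟨N₁, h₁⟩ := hx
    obtain ⟨N₂, h₂⟩ := hy
    refine ⟨max N₁ N₂, fun N hN => ?_⟩
    rw [ps_add, h₁ N (le_trans (le_max_left _ _) hN), h₂ N (le_trans (le_max_right _ _) hN)]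
  | smul c x _ hx =>
    obtain ⟨N₁, h₁⟩ := hx
    refine ⟨N₁, fun N hN => ?_⟩
    rw [ps_smul, h₁ N hN]

lemma ps_tendsto (hS : Idl S) (u : Tt S →ᵇ ℝ) (hu : u ∈ XX hS) :
    Tendsto (fun N => ps hS N u) atTop (𝓝 u) := by
  rw [Metric.tendsto_atTop]
  intro ε hε
  have hu' : u ∈ closure (Submodule.span ℝ (Set.range (bv hS)) : Set (Tt S →ᵇ ℝ)) := hu
  obtain ⟨v, hv, huv⟩ := Metric.mem_closure_iff.1 hu' (ε / 2) (by linarith)
  obtain ⟨N₀, hN₀⟩ := ps_span hS v hv
  refine ⟨N₀, fun N hN => ?_⟩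
  have hv' : v ∈ XX hS := Submodule.le_topologicalClosure _ hv
  have h1 : ps hS N u - u = ps hS N (u + (-1 : ℝ) • v) + (v - u) := by
    rw [ps_add, ps_smul, hN₀ N hN]
    module
  have h2 : u + (-1 : ℝ) • v = u - v := by module
  rw [dist_eq_norm, h1, h2]
  have h3 : ‖ps hS N (u - v)‖ ≤ ‖u - v‖ := ps_norm hS N _ (Submodule.sub_mem _ hu hv')
  rw [dist_eq_norm] at huv
  calc ‖ps hS N (u - v) + (v - u)‖ ≤ ‖ps hS N (u - v)‖ + ‖v - u‖ := norm_add_le _ _
    _ ≤ ‖u - v‖ + ‖u - v‖ := by rw [norm_sub_rev v u]; linarith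
    _ < ε := by linarith

end

theorem main : S_BAN := by
  intro S hS
  have hcl : IsClosed (XX hS : Set (Tt S →ᵇ ℝ)) := Submodule.isClosed_topologicalClosure _
  have hcomp : CompleteSpace (XX hS) := hcl.completeSpace_coe
  refine ⟨XX hS, inferInstance, inferInstance, hcomp, fun n => ⟨bv hS n, bv_mem hS n⟩,
    fun n => (BoundedContinuousFunction.evalCLM ℝ (pt hS n)).comp (XX hS).subtypeL, ?_⟩
  constructor
  · intro i j
    exact bv_pt hS i j
  · intro x
    have h1 := ps_tendsto hS x.1 x.2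
    rw [tendsto_subtype_rng]
    refine h1.congr fun N => ?_
    unfold ps
    rw [AddSubmonoidClass.coe_finsetSum]
    rfl
  · intro x c hc
    exact norm_iff hS x.1 x.2 c hc

end Pool.Agent.W18.GZ.BAN
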